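import Pool.Agent.Y424.TW.Split
import Pool.Agent.Y424.FR.Num

/-!
# Growth rate of the Ramsey numbers for graphs of given twin-width
-/

set_option autoImplicit false

namespace Pool.Agent.Y424.TW

open Finset

theorem upper {n d k : ℕ} (G : SimpleGraph (Fin n)) (hG : TwinWidthLE G d) (hk : 2 ≤ k)
    (h1 : G.CliqueFree k) (h2 : Gᶜ.CliqueFree k) :
    (n : ℝ) ≤ (d + 1) * 2 ^ (14 * Real.sqrt (k * Real.logb 2 k)) := by
  have hkR : (2 : ℝ) ≤ k := by exact_mod_cast hk
  have hk0 : (0 : ℝ) < k := by linarith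
  set L := Real.logb 2 k with hL
  have hL1 : 1 ≤ L := by
    rw [hL, Real.le_logb_iff_rpow_le (by norm_num) hk0, Real.rpow_one]
    exact hkR
  have hLk : L ≤ k := by
    rw [hL, Real.logb_le_iff_le_rpow (by norm_num) hk0, Real.rpow_natCast]
    exact_mod_cast (Nat.lt_two_pow_self (n := k)).le
  have h2L : (2 : ℝ) ^ L = k := Real.rpow_logb (by norm_num) (by norm_num) hk0
  set x := Real.sqrt (k / L) with hx
  set y := Real.sqrt (k * L) with hy
  have hkL : 1 ≤ (k : ℝ) / L := by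
    rw [le_div_iff₀ (by linarith)]
    linarith
  have hx1 : 1 ≤ x := by
    rw [hx, Real.one_le_sqrt]
    exact hkL
  have hyx : y = x * L := by
    rw [hy, hx]
    have e1 : (k : ℝ) * L = (k / L) * L ^ 2 := by
      field_simp
    rw [e1, Real.sqrt_mul (by positivity), Real.sqrt_sq (by linarith)]
  have hkxy : (k : ℝ) = x * y := by
    rw [hx, hy, ← Real.sqrt_mul (by positivity)]
    have e1 : (k : ℝ) / L * (k * L) = k ^ 2 := by
      field_simp
    rw [e1, Real.sqrt_sq hk0.le]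
  have hy1 : 1 ≤ y := by
    rw [hyx]
    nlinarith
  set u := ⌈x⌉₊ with hu
  have hux : x ≤ u := Nat.le_ceil x
  have hux2 : (u : ℝ) ≤ 2 * x := by
    have := (Nat.ceil_lt_add_one (by linarith : 0 ≤ x)).le
    linarith
  have hu1 : 1 ≤ u := by
    have : (1 : ℝ) ≤ u := by linarith
    exact_mod_cast this
  have hxk : x ≤ k := by
    rw [hkxy]
    nlinarith
  have huk : u ≤ k := by
    rw [hu]
    exact Nat.ceil_le.2 hxk
  have hexp := explicit G hG hu1 h1 h2
  have hexpR : (n : ℝ) < 4 ^ (2 * (k / u + 1)) * (4 * (d + 1) * ((u + k).choose u : ℕ)) := by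
    exact_mod_cast hexp
  have hchoose : (((u + k).choose u : ℕ) : ℝ) ≤ 2 ^ (4 * y) := by
    have e1 : (((u + k).choose u : ℕ) : ℝ) ≤ (2 * (k : ℝ)) ^ u := by
      have : (u + k).choose u ≤ (2 * k) ^ u :=
        (Nat.choose_le_pow _ _).trans (Nat.pow_le_pow_left (by omega) u)
      exact_mod_cast this
    have e2 : 2 * (k : ℝ) ≤ 2 ^ (2 * L) := by
      rw [two_mul L, Real.rpow_add (by norm_num), h2L]
      nlinarith
    calc (((u + k).choose u : ℕ) : ℝ) ≤ (2 * (k : ℝ)) ^ u := e1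
      _ ≤ (2 ^ (2 * L)) ^ u := pow_le_pow_left₀ (by positivity) e2 u
      _ = 2 ^ (2 * L * u) := by rw [← Real.rpow_natCast, ← Real.rpow_mul (by norm_num)]
      _ ≤ 2 ^ (4 * y) := by
          apply Real.rpow_le_rpow_of_exponent_le (by norm_num)
          rw [hyx]
          nlinarith
  have hfour : (4 : ℝ) ^ (2 * (k / u + 1)) ≤ 2 ^ (4 * y + 4) := by
    have e1 : ((k / u : ℕ) : ℝ) ≤ y := by
      have e2 : ((k / u : ℕ) : ℝ) ≤ (k : ℝ) / u := Nat.cast_div_le
      refine e2.trans ?_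
      rw [div_le_iff₀ (by linarith)]
      rw [hkxy, mul_comm x y]
      exact mul_le_mul_of_nonneg_left hux (by linarith)
    calc (4 : ℝ) ^ (2 * (k / u + 1)) = 2 ^ ((2 : ℝ) * ((2 * (k / u + 1) : ℕ) : ℝ)) := by
          rw [Real.rpow_mul (by norm_num), Real.rpow_natCast]
          norm_num
      _ ≤ 2 ^ (4 * y + 4) := by
          apply Real.rpow_le_rpow_of_exponent_le (by norm_num)
          push_cast
          linarith
  have hd : (0 : ℝ) < (d : ℝ) + 1 := by positivity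
  calc (n : ℝ) ≤ 4 ^ (2 * (k / u + 1)) * (4 * (d + 1) * ((u + k).choose u : ℕ)) := hexpR.le
    _ ≤ 2 ^ (4 * y + 4) * (4 * (d + 1) * 2 ^ (4 * y)) := by gcongr
    _ = (d + 1) * (2 ^ (4 * y + 4) * 2 ^ (2 : ℝ) * 2 ^ (4 * y)) := by
        norm_num
        ring
    _ = (d + 1) * 2 ^ (8 * y + 6) := by
        rw [← Real.rpow_add (by norm_num), ← Real.rpow_add (by norm_num)]
        congr 2
        ring
    _ ≤ (d + 1) * 2 ^ (14 * y) := by
        apply mul_le_mul_of_nonneg_left _ hd.le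
        apply Real.rpow_le_rpow_of_exponent_le (by norm_num)
        linarith

/-- Erdős' lower bound, for every number of vertices. -/
theorem erdos (n k : ℕ) (hk : 32 ≤ k) (hn : (n : ℝ) ≤ 2 ^ ((k : ℝ) / 2)) :
    ∃ G : SimpleGraph (Fin n), G.CliqueFree k ∧ Gᶜ.CliqueFree k := by
  classical
  obtain ⟨N, G, hN, -, h1, h2⟩ := FR.lower k k (by omega) le_rfl
  have hkR : (32 : ℝ) ≤ k := by exact_mod_cast hk
  have e1 : (k : ℝ) - (k : ℝ) ^ 2 / (2 * k) = k / 2 := by
    field_simp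
    ring
  rw [e1] at hN
  have e2 : (1 : ℝ) ≤ 2 ^ ((k : ℝ) / 2) := Real.one_le_rpow (by norm_num) (by positivity)
  have e3 : 2 * (2 : ℝ) ^ ((k : ℝ) / 2) ≤ k / 16 * 2 ^ ((k : ℝ) / 2) :=
    mul_le_mul_of_nonneg_right (by linarith) (by positivity)
  have hnN : n ≤ N := by
    have : (n : ℝ) ≤ N := by linarith
    exact_mod_cast this
  refine ⟨G.comap (Fin.castLE hnN), ?_, ?_⟩
  · intro S hS
    refine h1 (S.map (Fin.castLEEmb hnN)) ⟨?_, by rw [card_map]; exact hS.card_eq⟩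
    intro x hx y hy hxy
    rw [mem_coe, mem_map] at hx hy
    obtain ⟨x', hx', rfl⟩ := hx
    obtain ⟨y', hy', rfl⟩ := hy
    have hne : x' ≠ y' := fun h => hxy (by rw [h])
    exact hS.isClique hx' hy' hne
  · intro S hS
    refine h2 (S.map (Fin.castLEEmb hnN)) ⟨?_, by rw [card_map]; exact hS.card_eq⟩
    intro x hx y hy hxy
    rw [mem_coe, mem_map] at hx hy
    obtain ⟨x', hx', rfl⟩ := hx
    obtain ⟨y', hy', rfl⟩ := hy
    have hne : x' ≠ y' := fun h => hxy (by rw [h])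
    have h3 := hS.isClique hx' hy' hne
    rw [SimpleGraph.compl_adj] at h3 ⊢
    exact ⟨hxy, h3.2⟩

theorem rate (δ : ℝ) (hδ : 0 < δ) (hδ1 : δ ≤ 1 / 2) (ε : ℝ) (hε : 0 < ε) :
    ∃ k₀ : ℕ, ∀ k : ℕ, k₀ ≤ k →
      (∀ (n d : ℕ) (G : SimpleGraph (Fin n)), (d : ℝ) ≤ 2 ^ (δ * k) → TwinWidthLE G d →
        G.CliqueFree k → Gᶜ.CliqueFree k → (n : ℝ) ≤ 2 ^ ((δ + ε) * k)) ∧
      (∃ (n : ℕ) (G : SimpleGraph (Fin n)), (n : ℝ) ≤ 2 ^ (δ * k) ∧ TwinWidthLE G n ∧
        G.CliqueFree k ∧ Gᶜ.CliqueFree k ∧ (2 : ℝ) ^ (δ * k) < n + 1) := by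
  -- `√(k log k) = o(k)`
  have hlog : ∃ k₁ : ℕ, ∀ k : ℕ, k₁ ≤ k →
      1 + 14 * Real.sqrt (k * Real.logb 2 k) ≤ ε * k := by
    have ht : Filter.Tendsto (fun x : ℝ => Real.log x ^ (1 : ℕ) / x) Filter.atTop (nhds 0) := by
      have := Real.tendsto_pow_log_div_mul_add_atTop 1 0 1 one_ne_zero
      simpa using this
    set η := (ε / 28) ^ 2 * Real.log 2 with hη
    have hη0 : 0 < η := by
      have : 0 < Real.log 2 := Real.log_pos (by norm_num)
      positivity
    have hev := (ht.comp tendsto_natCast_atTop_atTop).eventually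
      (gt_mem_nhds (show (0 : ℝ) < η from hη0))
    obtain ⟨k₂, hk₂⟩ := hev.exists_forall_of_atTop
    obtain ⟨k₃, hk₃⟩ := exists_nat_gt (2 / ε)
    refine ⟨max (max k₂ k₃) 1, fun k hk => ?_⟩
    have hkk₂ : k₂ ≤ k := (le_max_left _ _).trans ((le_max_left _ _).trans hk)
    have hkk₃ : k₃ ≤ k := (le_max_right _ _).trans ((le_max_left _ _).trans hk)
    have hk1 : 1 ≤ k := (le_max_right _ _).trans hk
    have hk0 : (0 : ℝ) < k := by exact_mod_cast hk1
    have h1 := hk₂ k hkk₂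
    simp only [Function.comp_apply, pow_one] at h1
    rw [div_lt_iff₀ hk0] at h1
    have h2 : Real.logb 2 k ≤ (ε / 28) ^ 2 * k := by
      unfold Real.logb
      rw [div_le_iff₀ (Real.log_pos (by norm_num))]
      rw [hη] at h1
      linarith
    have h3 : Real.sqrt (k * Real.logb 2 k) ≤ ε / 28 * k := by
      rw [Real.sqrt_le_left (by positivity)]
      calc (k : ℝ) * Real.logb 2 k ≤ k * ((ε / 28) ^ 2 * k) :=
            mul_le_mul_of_nonneg_left h2 hk0.le
        _ = (ε / 28 * k) ^ 2 := by ring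
    have h4 : 2 < ε * k := by
      rw [div_lt_iff₀ hε] at hk₃
      have : (k₃ : ℝ) ≤ k := by exact_mod_cast hkk₃
      nlinarith
    linarith
  obtain ⟨k₁, hk₁⟩ := hlog
  refine ⟨max k₁ 32, fun k hk => ?_⟩
  have hkk₁ : k₁ ≤ k := (le_max_left _ _).trans hk
  have hk32 : 32 ≤ k := (le_max_right _ _).trans hk
  have hk0 : (0 : ℝ) < k := by
    have : 0 < k := by omega
    exact_mod_cast this
  constructor
  · intro n d G hd hG h1 h2
    have h3 := upper G hG (by omega) h1 h2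
    have h4 : (1 : ℝ) ≤ 2 ^ (δ * k) := Real.one_le_rpow (by norm_num) (by positivity)
    calc (n : ℝ) ≤ (d + 1) * 2 ^ (14 * Real.sqrt (k * Real.logb 2 k)) := h3
      _ ≤ (2 ^ (δ * k) * 2) * 2 ^ (14 * Real.sqrt (k * Real.logb 2 k)) := by
          apply mul_le_mul_of_nonneg_right _ (by positivity)
          linarith
      _ = 2 ^ (δ * k + (1 + 14 * Real.sqrt (k * Real.logb 2 k))) := by
          rw [Real.rpow_add (by norm_num), Real.rpow_add (by norm_num), Real.rpow_one]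
          ring
      _ ≤ 2 ^ ((δ + ε) * k) := by
          apply Real.rpow_le_rpow_of_exponent_le (by norm_num)
          have := hk₁ k hkk₁
          linarith
  · set n := ⌊(2 : ℝ) ^ (δ * k)⌋₊ with hn
    have hn1 : (n : ℝ) ≤ 2 ^ (δ * k) := Nat.floor_le (by positivity)
    obtain ⟨G, h1, h2⟩ := erdos n k hk32 (hn1.trans (by
      apply Real.rpow_le_rpow_of_exponent_le (by norm_num)
      nlinarith))
    exact ⟨n, G, hn1, twinWidthLE_self G, h1, h2, Nat.lt_floor_add_one _⟩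

end Pool.Agent.Y424.TW
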