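import Mathlib

/-!
# Graphs of given twin-width: large homogeneous pairs and homogeneous sets
-/

set_option autoImplicit false

namespace Pool.Agent.Y424.TW

open Finset

/-- The sets `A` and `B` of vertices are homogeneous to each other: all the pairs between them are
adjacent, or none. -/
def HomPair {n : ℕ} (G : SimpleGraph (Fin n)) (A B : Set (Fin n)) : Prop :=
  (∀ a ∈ A, ∀ b ∈ B, G.Adj a b) ∨ (∀ a ∈ A, ∀ b ∈ B, ¬ G.Adj a b)

open Classical in
/-- Twin-width at most `d`: there is a sequence `p 0, …, p T` of partitions of the vertices (`p t x`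
is the name of the part of `x`), starting with the partition into single vertices and ending with
only one part, such that each partition arises from the preceding one by merging two parts (the
part `a` is added to the part `b`), and in each of them for each part there are at most `d` other
parts which are not homogeneous to it. -/
def TwinWidthLE {n : ℕ} (G : SimpleGraph (Fin n)) (d : ℕ) : Prop :=
  ∃ (T : ℕ) (p : ℕ → Fin n → ℕ),
    (∀ x y, p 0 x = p 0 y → x = y) ∧ (∀ x y, p T x = p T y) ∧
    (∀ t < T, ∃ a b : ℕ, ∀ x, p (t + 1) x = if p t x = a then b else p t x) ∧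
    (∀ t ≤ T, ∀ a : ℕ, ((univ.image (p t)).filter (fun b =>
      b ≠ a ∧ ¬ HomPair G {x | p t x = a} {x | p t x = b})).card ≤ d)

/-- trivial bound -/
theorem twinWidthLE_self {n : ℕ} (G : SimpleGraph (Fin n)) : TwinWidthLE G n := by
  classical
  refine ⟨n, fun t x => if x.val ≤ t then 0 else x.val, ?_, ?_, ?_, ?_⟩
  · intro x y h
    simp only [Nat.le_zero] at h
    apply Fin.ext
    by_cases hx : x.val = 0
    · by_cases hy : y.val = 0
      · rw [hx, hy]
      · rw [if_pos hx, if_neg hy] at h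
        exact absurd h.symm hy
    · by_cases hy : y.val = 0
      · rw [if_neg hx, if_pos hy] at h
        exact absurd h hx
      · rwa [if_neg hx, if_neg hy] at h
  · intro x y
    simp only
    rw [if_pos x.isLt.le, if_pos y.isLt.le]
  · intro t _
    refine ⟨t + 1, 0, fun x => ?_⟩
    simp only
    by_cases h1 : x.val ≤ t
    · rw [if_pos h1, if_pos (by omega), if_neg (by omega)]
    · rw [if_neg h1]
      by_cases h2 : x.val = t + 1
      · rw [if_pos (by omega), if_pos h2]
      · rw [if_neg (by omega), if_neg h2]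
  · intro t _ a
    refine (card_le_card (filter_subset _ _)).trans (card_image_le.trans ?_)
    rw [card_univ, Fintype.card_fin]

/-- A large homogeneous pair inside a given set of vertices. -/
theorem exists_pair {n d m : ℕ} (G : SimpleGraph (Fin n)) (hG : TwinWidthLE G d)
    (S : Finset (Fin n)) (hm : 1 ≤ m) (hS : 4 * (d + 1) * m ≤ S.card) :
    ∃ P ⊆ S, ∃ R ⊆ S, Disjoint P R ∧ m ≤ P.card ∧ S.card ≤ 4 * R.card ∧
      ((∀ x ∈ P, ∀ y ∈ R, G.Adj x y) ∨ (∀ x ∈ P, ∀ y ∈ R, ¬ G.Adj x y)) := by
  classical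
  obtain ⟨T, p, h0, hT, hstep, hred⟩ := hG
  -- the class of the label `a`
  let C : ℕ → ℕ → Finset (Fin n) := fun t a => S.filter (fun x => p t x = a)
  have hSm : m < S.card := by
    have : 4 * (d + 1) * m = 4 * m + 4 * d * m := by ring
    have h2 : 0 ≤ 4 * d * m := Nat.zero_le _
    omega
  have hSne : S.Nonempty := by
    rw [← card_pos]
    omega
  have hex : ∃ t, t ≤ T ∧ ∃ a, m < (C t a).card := by
    obtain ⟨x, hx⟩ := hSne
    refine ⟨T, le_rfl, p T x, ?_⟩
    have : C T (p T x) = S := by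
      simp only [C]
      exact filter_true_of_mem (fun y _ => hT y x)
    rw [this]
    exact hSm
  obtain ⟨htT, a, ha⟩ := Nat.find_spec hex
  set t := Nat.find hex with ht
  have hmin : ∀ t' < t, ∀ a, (C t' a).card ≤ m := by
    intro t' ht' a'
    by_contra hcon
    exact Nat.find_min hex ht' ⟨by omega, a', not_le.1 hcon⟩
  have ht0 : t ≠ 0 := by
    intro ht0
    rw [ht0] at ha
    have h1 : (C 0 a).card ≤ 1 := by
      rw [card_le_one]
      intro x hx y hy
      exact h0 x y ((mem_filter.1 hx).2.trans (mem_filter.1 hy).2.symm)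
    omega
  -- all the classes have at most `2 m` elements
  have hall : ∀ a', (C t a').card ≤ 2 * m := by
    intro a'
    obtain ⟨u, hu⟩ : ∃ u, t = u + 1 := ⟨t - 1, by omega⟩
    obtain ⟨b, c, hbc⟩ := hstep u (by omega)
    have hsub : C t a' ⊆ C u b ∪ C u a' := by
      intro x hx
      obtain ⟨hxS, hxa⟩ := mem_filter.1 hx
      rw [hu, hbc x] at hxa
      by_cases hxb : p u x = b
      · exact mem_union_left _ (mem_filter.2 ⟨hxS, hxb⟩)
      · rw [if_neg hxb] at hxa
        exact mem_union_right _ (mem_filter.2 ⟨hxS, hxa⟩)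
    have h1 := (card_le_card hsub).trans (card_union_le _ _)
    have h2 := hmin u (by omega) b
    have h3 := hmin u (by omega) a'
    omega
  -- the vertices which are not homogeneous to the class
  set D := (univ.image (p t)).filter (fun b =>
      b ≠ a ∧ ¬ HomPair G {x | p t x = a} {x | p t x = b}) with hD
  have hDc : D.card ≤ d := hred t htT a
  set B := C t a ∪ D.biUnion (fun b => C t b) with hB
  have hBc : B.card ≤ 2 * ((d + 1) * m) := by
    have h1 : (D.biUnion (fun b => C t b)).card ≤ D.card * (2 * m) :=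
      card_biUnion_le_card_mul _ _ _ (fun b _ => hall b)
    have h2 : D.card * (2 * m) ≤ d * (2 * m) := Nat.mul_le_mul hDc le_rfl
    calc B.card ≤ (C t a).card + (D.biUnion (fun b => C t b)).card := card_union_le _ _
      _ ≤ 2 * m + d * (2 * m) := Nat.add_le_add (hall a) (h1.trans h2)
      _ = 2 * ((d + 1) * m) := by ring
  set R0 := S \ B with hR0
  have hR0c : S.card ≤ 2 * R0.card := by
    have h1 := card_le_card_sdiff_add_card (s := S) (t := B)
    have h2 : 4 * (d + 1) * m = 4 * ((d + 1) * m) := by ring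
    rw [← hR0] at h1
    omega
  have hhom : ∀ y ∈ R0, (∀ x ∈ C t a, G.Adj x y) ∨ (∀ x ∈ C t a, ¬ G.Adj x y) := by
    intro y hy
    obtain ⟨hyS, hyB⟩ := mem_sdiff.1 hy
    rw [hB, mem_union, not_or] at hyB
    have hya : p t y ≠ a := fun h => hyB.1 (mem_filter.2 ⟨hyS, h⟩)
    have hyD : p t y ∉ D := fun h => hyB.2 (mem_biUnion.2 ⟨_, h, mem_filter.2 ⟨hyS, rfl⟩⟩)
    rw [hD, mem_filter, not_and, not_and, not_not] at hyD
    rcases hyD (mem_image.2 ⟨y, mem_univ _, rfl⟩) hya with h | h
    · exact Or.inl (fun x hx => h x (mem_filter.1 hx).2 y rfl)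
    · exact Or.inr (fun x hx => h x (mem_filter.1 hx).2 y rfl)
  set R1 := R0.filter (fun y => ∀ x ∈ C t a, G.Adj x y) with hR1
  set R2 := R0.filter (fun y => ¬ ∀ x ∈ C t a, G.Adj x y) with hR2
  have hsum : R1.card + R2.card = R0.card := card_filter_add_card_filter_not _
  have hPS : C t a ⊆ S := filter_subset _ _
  have hdisj : Disjoint (C t a) R0 := by
    rw [Finset.disjoint_left]
    intro x hx hx'
    exact (mem_sdiff.1 hx').2 (mem_union_left _ hx)
  rcases Nat.lt_or_ge R1.card R2.card with hlt | hge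
  · refine ⟨C t a, hPS, R2, (filter_subset _ _).trans sdiff_subset,
      hdisj.mono_right (filter_subset _ _), ha.le, by omega, Or.inr ?_⟩
    intro x hx y hy
    obtain ⟨hy0, hy1⟩ := mem_filter.1 hy
    rcases hhom y hy0 with h | h
    · exact absurd h hy1
    · exact h x hx
  · refine ⟨C t a, hPS, R1, (filter_subset _ _).trans sdiff_subset,
      hdisj.mono_right (filter_subset _ _), ha.le, by omega, Or.inl ?_⟩
    intro x hx y hy
    exact (mem_filter.1 hy).2 x hx

/-- the theorem of Erdős and Szekeres inside a set -/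
theorem erdos_szekeres {n : ℕ} (G : SimpleGraph (Fin n)) : ∀ (s a b : ℕ), a + b = s →
    ∀ S : Finset (Fin n), s.choose a ≤ S.card →
    (∃ Q ⊆ S, Q.card = a ∧ G.IsClique (Q : Set (Fin n))) ∨
    (∃ Q ⊆ S, Q.card = b ∧ G.IsIndepSet (Q : Set (Fin n))) := by
  classical
  intro s
  induction s with
  | zero =>
    intro a b hab S _
    left
    refine ⟨∅, empty_subset _, ?_, ?_⟩
    · rw [card_empty]
      omega
    · simp
  | succ s ih =>
    intro a b hab S hS
    rcases Nat.eq_zero_or_pos a with ha | ha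
    · left
      refine ⟨∅, empty_subset _, by rw [card_empty, ha], by simp⟩
    rcases Nat.eq_zero_or_pos b with hb | hb
    · right
      refine ⟨∅, empty_subset _, by rw [card_empty, hb], by simp [SimpleGraph.IsIndepSet]⟩
    obtain ⟨a', rfl⟩ : ∃ a', a = a' + 1 := ⟨a - 1, by omega⟩
    obtain ⟨b', rfl⟩ : ∃ b', b = b' + 1 := ⟨b - 1, by omega⟩
    have hSne : S.Nonempty := by
      rw [← card_pos]
      exact lt_of_lt_of_le (Nat.choose_pos (by omega)) hS
    obtain ⟨v, hv⟩ := hSne
    set S1 := (S.erase v).filter (fun w => G.Adj v w) with hS1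
    set S2 := (S.erase v).filter (fun w => ¬ G.Adj v w) with hS2
    have hsum : S1.card + S2.card = (S.erase v).card := card_filter_add_card_filter_not _
    rw [card_erase_of_mem hv] at hsum
    have hS' : s.choose a' + s.choose (a' + 1) ≤ S.card := by
      have := Nat.choose_succ_succ s a'
      rw [this] at hS
      exact hS
    have hSpos : 1 ≤ S.card := card_pos.2 ⟨v, hv⟩
    have hS1S : S1 ⊆ S := (filter_subset _ _).trans (erase_subset _ _)
    have hS2S : S2 ⊆ S := (filter_subset _ _).trans (erase_subset _ _)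
    have hcase : s.choose a' ≤ S1.card ∨ s.choose (a' + 1) ≤ S2.card := by
      by_contra hcon
      rw [not_or, not_le, not_le] at hcon
      omega
    rcases hcase with h1 | h1
    · rcases ih a' (b' + 1) (by omega) S1 h1 with ⟨Q, hQ, hQc, hQh⟩ | ⟨Q, hQ, hQc, hQh⟩
      · left
        have hvQ : v ∉ Q := fun h => (mem_erase.1 (mem_filter.1 (hQ h)).1).1 rfl
        refine ⟨insert v Q, insert_subset hv (hQ.trans hS1S), by rw [card_insert_of_notMem hvQ, hQc],
          ?_⟩
        rw [coe_insert, SimpleGraph.isClique_insert]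
        exact ⟨hQh, fun w hw _ => (mem_filter.1 (hQ hw)).2⟩
      · right
        exact ⟨Q, hQ.trans hS1S, hQc, hQh⟩
    · rcases ih (a' + 1) b' (by omega) S2 h1 with ⟨Q, hQ, hQc, hQh⟩ | ⟨Q, hQ, hQc, hQh⟩
      · left
        exact ⟨Q, hQ.trans hS2S, hQc, hQh⟩
      · right
        have hvQ : v ∉ Q := fun h => (mem_erase.1 (mem_filter.1 (hQ h)).1).1 rfl
        refine ⟨insert v Q, insert_subset hv (hQ.trans hS2S), by rw [card_insert_of_notMem hvQ, hQc],
          ?_⟩
        intro x hx y hy hxy
        rw [coe_insert] at hx hy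
        rcases hx with rfl | hx
        · rcases hy with rfl | hy
          · exact absurd rfl hxy
          · exact (mem_filter.1 (hQ hy)).2
        · rcases hy with rfl | hy
          · intro h
            exact (mem_filter.1 (hQ hx)).2 h.symm
          · exact hQh hx hy hxy

/-- accumulation of cliques and independent sets -/
theorem iterate {n d m u : ℕ} (G : SimpleGraph (Fin n)) (hG : TwinWidthLE G d) (hm : 1 ≤ m)
    (hP : ∀ P : Finset (Fin n), m ≤ P.card →
      (∃ Q ⊆ P, Q.card = u ∧ G.IsClique (Q : Set (Fin n))) ∧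
      (∃ Q ⊆ P, Q.card = u ∧ G.IsIndepSet (Q : Set (Fin n)))) :
    ∀ (j : ℕ) (S : Finset (Fin n)), 4 ^ j * (4 * (d + 1) * m) ≤ S.card →
      ∃ i ≤ j, (∃ Q ⊆ S, Q.card = i * u ∧ G.IsClique (Q : Set (Fin n))) ∧
        (∃ Q ⊆ S, Q.card = (j - i) * u ∧ G.IsIndepSet (Q : Set (Fin n))) := by
  classical
  intro j
  induction j with
  | zero =>
    intro S _
    refine ⟨0, le_rfl, ⟨∅, empty_subset _, by simp, by simp⟩,
      ⟨∅, empty_subset _, by simp, by simp [SimpleGraph.IsIndepSet]⟩⟩
  | succ j ih =>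
    intro S hS
    have hS' : 4 * (d + 1) * m ≤ S.card := by
      refine le_trans ?_ hS
      exact Nat.le_mul_of_pos_left _ (by positivity)
    obtain ⟨P, hPS, R, hRS, hdisj, hPm, hRc, hhom⟩ := exists_pair G hG S hm hS'
    have hR : 4 ^ j * (4 * (d + 1) * m) ≤ R.card := by
      have h1 : 4 ^ (j + 1) * (4 * (d + 1) * m) = 4 * (4 ^ j * (4 * (d + 1) * m)) := by ring
      rw [h1] at hS
      omega
    obtain ⟨i, hi, ⟨Q1, hQ1, hQ1c, hQ1h⟩, ⟨Q2, hQ2, hQ2c, hQ2h⟩⟩ := ih R hR
    obtain ⟨⟨A1, hA1, hA1c, hA1h⟩, ⟨A2, hA2, hA2c, hA2h⟩⟩ := hP P hPm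
    rcases hhom with hhom | hhom
    · refine ⟨i + 1, by omega, ⟨A1 ∪ Q1, union_subset (hA1.trans hPS) (hQ1.trans hRS), ?_, ?_⟩,
        ⟨Q2, hQ2.trans hRS, by rw [hQ2c]; congr 1; omega, hQ2h⟩⟩
      · rw [card_union_of_disjoint (disjoint_of_subset_left hA1
          (disjoint_of_subset_right hQ1 hdisj)), hA1c, hQ1c]
        ring
      · intro x hx y hy hxy
        rw [coe_union] at hx hy
        rcases hx with hx | hx
        · rcases hy with hy | hy
          · exact hA1h hx hy hxy
          · exact hhom x (hA1 hx) y (hQ1 hy)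
        · rcases hy with hy | hy
          · exact (hhom y (hA1 hy) x (hQ1 hx)).symm
          · exact hQ1h hx hy hxy
    · refine ⟨i, by omega, ⟨Q1, hQ1.trans hRS, hQ1c, hQ1h⟩,
        ⟨A2 ∪ Q2, union_subset (hA2.trans hPS) (hQ2.trans hRS), ?_, ?_⟩⟩
      · rw [card_union_of_disjoint (disjoint_of_subset_left hA2
          (disjoint_of_subset_right hQ2 hdisj)), hA2c, hQ2c]
        have : j + 1 - i = (j - i) + 1 := by omega
        rw [this]
        ring
      · intro x hx y hy hxy
        rw [coe_union] at hx hy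
        rcases hx with hx | hx
        · rcases hy with hy | hy
          · exact hA2h hx hy hxy
          · exact hhom x (hA2 hx) y (hQ2 hy)
        · rcases hy with hy | hy
          · intro h
            exact hhom y (hA2 hy) x (hQ2 hx) h.symm
          · exact hQ2h hx hy hxy

/-- Explicit bound. -/
theorem explicit {n d k u : ℕ} (G : SimpleGraph (Fin n)) (hG : TwinWidthLE G d) (hu : 1 ≤ u)
    (h1 : G.CliqueFree k) (h2 : Gᶜ.CliqueFree k) :
    n < 4 ^ (2 * (k / u + 1)) * (4 * (d + 1) * (u + k).choose u) := by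
  classical
  by_contra hcon
  rw [not_lt] at hcon
  have hno1 : ∀ Q : Finset (Fin n), k ≤ Q.card → ¬ G.IsClique (Q : Set (Fin n)) := by
    intro Q hQ hQc
    exact (h1.mono hQ) Q ⟨hQc, rfl⟩
  have hno2 : ∀ Q : Finset (Fin n), k ≤ Q.card → ¬ G.IsIndepSet (Q : Set (Fin n)) := by
    intro Q hQ hQc
    refine (h2.mono hQ) Q ⟨?_, rfl⟩
    intro x hx y hy hxy
    rw [SimpleGraph.compl_adj]
    exact ⟨hxy, hQc hx hy hxy⟩
  have hP : ∀ P : Finset (Fin n), (u + k).choose u ≤ P.card →
      (∃ Q ⊆ P, Q.card = u ∧ G.IsClique (Q : Set (Fin n))) ∧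
      (∃ Q ⊆ P, Q.card = u ∧ G.IsIndepSet (Q : Set (Fin n))) := by
    intro P hP
    constructor
    · rcases erdos_szekeres G (u + k) u k rfl P hP with h | ⟨Q, _, hQc, hQh⟩
      · exact h
      · exact absurd hQh (hno2 Q hQc.ge)
    · rcases erdos_szekeres G (u + k) k u (by ring) P (by
        have : (u + k).choose k = (u + k).choose u := by
          rw [← Nat.choose_symm_add]
        rw [this]
        exact hP) with ⟨Q, _, hQc, hQh⟩ | h
      · exact absurd hQh (hno1 Q hQc.ge)
      · exact h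
  obtain ⟨i, hi, ⟨Q1, -, hQ1c, hQ1h⟩, ⟨Q2, -, hQ2c, hQ2h⟩⟩ :=
    iterate G hG (Nat.choose_pos (by omega)) hP (2 * (k / u + 1)) univ (by
      rw [card_univ, Fintype.card_fin]
      exact hcon)
  have hku : k ≤ (k / u + 1) * u := by
    have := Nat.lt_div_mul_add (a := k) (b := u) hu
    have h3 : (k / u + 1) * u = k / u * u + u := by ring
    omega
  rcases Nat.lt_or_ge i (k / u + 1) with hlt | hge
  · refine hno2 Q2 ?_ hQ2h
    rw [hQ2c]
    exact hku.trans (Nat.mul_le_mul (by omega) le_rfl)
  · refine hno1 Q1 ?_ hQ1h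
    rw [hQ1c]
    exact hku.trans (Nat.mul_le_mul hge le_rfl)

end Pool.Agent.Y424.TW
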